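import Pool.Agent.Lib.MP_5349a4_pr.M.Iface1
import Pool.Agent.Lib.MP_5349a4_pr.M.Base

/-!
# CLB: elementary facts about clusters
-/

set_option autoImplicit false

namespace Pool.Agent.Lib.MP_5349a4_pr.H58

open Relation

variable {E : Type} {adj : E → E → Prop} {P Q : Set E} {x y : E}

theorem cl_mono (h : P ⊆ Q) : cl adj P x ⊆ cl adj Q x := by
  intro a ha
  have h1 : ∀ u v : E, step adj P u v → step adj Q u v := fun u v huv => ⟨huv.1, h huv.2⟩
  exact ReflTransGen.mono h1 _ _ ha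

theorem cl_tail {a b : E} (ha : a ∈ cl adj P x) (hab : adj a b) (hb : b ∈ P) : b ∈ cl adj P x :=
  ReflTransGen.tail ha ⟨hab, hb⟩

theorem con_mono (h : P ⊆ Q) (hc : Con adj P x y) : Con adj Q x y := by
  obtain ⟨a, ha, h'⟩ := hc
  exact ⟨a, cl_mono h ha, h'⟩

theorem cl_insert {a : E} (ha : a ∈ cl adj (insert y P) x) :
    a ∈ cl adj P x ∨ (Con adj P x y ∧ a ∈ cl adj P y) := by
  induction ha with
  | refl => exact Or.inl ReflTransGen.refl
  | @tail a b _ hab ih =>
    rcases hab.2 with hb | hb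
    · subst hb
      rcases ih with ih | ih
      · exact Or.inr ⟨⟨a, ih, hab.1⟩, ReflTransGen.refl⟩
      · exact Or.inr ⟨ih.1, ReflTransGen.refl⟩
    · rcases ih with ih | ih
      · exact Or.inl (cl_tail ih hab.1 hb)
      · exact Or.inr ⟨ih.1, cl_tail ih.2 hab.1 hb⟩

theorem con_rev (hs : ∀ a b, adj a b → adj b a) {a : E} (ha : a ∈ cl adj P x) :
    ∀ w, adj a w → Con adj P w x := by
  induction ha with
  | refl =>
    intro w hw
    exact ⟨w, ReflTransGen.refl, hs _ _ hw⟩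
  | @tail b a _ hba ih =>
    intro w hw
    obtain ⟨c, hc, hcx⟩ := ih a hba.1
    exact ⟨c, ReflTransGen.head ⟨hs _ _ hw, hba.2⟩ hc, hcx⟩

theorem con_symm (hs : ∀ a b, adj a b → adj b a) (h : Con adj P x y) : Con adj P y x := by
  obtain ⟨a, ha, hay⟩ := h
  exact con_rev hs ha y hay

theorem cl_eq (h : {e | e ∈ Q ∧ Con adj P x e} = {e | e ∈ P ∧ Con adj P x e}) :
    cl adj Q x = cl adj P x := by
  apply Set.Subset.antisymm
  · intro a ha
    induction ha with
    | refl => exact ReflTransGen.refl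
    | @tail a b _ hab ih =>
      have h1 : b ∈ {e | e ∈ Q ∧ Con adj P x e} := ⟨hab.2, a, ih, hab.1⟩
      rw [h] at h1
      exact cl_tail ih hab.1 h1.1
  · intro a ha
    have key : a ∈ cl adj P x ∧ a ∈ cl adj Q x := by
      induction ha with
      | refl => exact ⟨ReflTransGen.refl, ReflTransGen.refl⟩
      | @tail a b _ hab ih =>
        have h1 : b ∈ {e | e ∈ P ∧ Con adj P x e} := ⟨hab.2, a, ih.1, hab.1⟩
        rw [← h] at h1
        exact ⟨cl_tail ih.1 hab.1 hab.2, cl_tail ih.2 hab.1 h1.1⟩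
    exact key.2

theorem clb : ClbStatement := by
  intro E adj P Q x y
  refine ⟨cl_mono, ⟨?_, ?_⟩, ⟨?_, con_mono (Set.subset_insert _ _)⟩,
    fun hs => ⟨con_symm hs, con_symm hs⟩, ?_, ?_⟩
  · rintro a ⟨ha, hne⟩
    rcases ReflTransGen.cases_tail ha with h | ⟨b, hb, hba⟩
    · exact absurd h hne
    · exact ⟨hba.2, b, hb, hba.1⟩
  · rintro a ⟨ha, b, hb, hba⟩
    exact cl_tail hb hba ha
  · rintro ⟨a, ha, hay⟩
    rcases cl_insert ha with h | h
    · exact ⟨a, h, hay⟩
    · exact h.1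
  · intro h
    have h1 := cl_eq h
    refine ⟨h1, ?_⟩
    unfold clus
    have h2 : ∀ e, Con adj Q x e ↔ Con adj P x e := by
      intro e
      unfold Con
      rw [h1]
    have h3 : {p | p ∈ Q ∧ Con adj Q x p} = {p | p ∈ Q ∧ Con adj P x p} := by
      ext p
      simp only [Set.mem_setOf_eq, h2]
    exact h3.trans h
  · rintro s ⟨a, ha, hsa⟩
    rcases cl_insert ha with h | h
    · exact Or.inl ⟨a, h, hsa⟩
    · exact Or.inr ⟨h.1, a, h.2, hsa⟩

end Pool.Agent.Lib.MP_5349a4_pr.H58
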