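import Pool.Agent.Lib.MP_5349a4_pr.M.Iface2
import Pool.Agent.Lib.MP_5349a4_pr.M.Base

/-!
# LENS: the triple convolution of the unit ball
-/

set_option autoImplicit false
open MeasureTheory Set
open scoped ENNReal NNReal

namespace Pool.Agent.Lib.MP_5349a4_pr.H58

variable {d : ℕ}

theorem vol_bal (x : Eu d) {r : ℝ} (hr : 0 ≤ r) :
    volume {u : Eu d | ‖x - u‖ ≤ r} = ENNReal.ofReal (r ^ d) * volume (bal (0 : Eu d) 1) := by
  have h1 : {u : Eu d | ‖x - u‖ ≤ r} = Metric.closedBall x r := by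
    ext u
    simp only [mem_setOf_eq, Metric.mem_closedBall]
    rw [dist_comm, dist_eq_norm]
  rw [h1, Measure.addHaar_closedBall' _ _ hr, finrank_euclideanSpace_fin]
  rfl

theorem meas_norm (x : Eu d) (r : ℝ) : MeasurableSet {u : Eu d | ‖x - u‖ ≤ r} :=
  measurableSet_le (measurable_const.sub measurable_id).norm measurable_const

theorem vol_ind (x : Eu d) {r : ℝ} (hr : 0 ≤ r) :
    ∫⁻ u : Eu d, ind (‖x - u‖ ≤ r) = ENNReal.ofReal (r ^ d) * volume (bal (0 : Eu d) 1) := by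
  rw [lintegral_ind (meas_norm x r), vol_bal x hr]

theorem vol_ind_one : ∫⁻ u : Eu d, ind (‖u‖ ≤ 1) = volume (bal (0 : Eu d) 1) := by
  have h := vol_ind (0 : Eu d) (r := 1) zero_le_one
  simpa using h

theorem lens_le (y : Eu d) :
    conv (fun u : Eu d => ind (‖u‖ ≤ 1)) (fun u : Eu d => ind (‖u‖ ≤ 1)) y
      ≤ volume (bal (0 : Eu d) 1) := by
  unfold conv
  rw [← vol_ind_one]
  refine lintegral_mono fun w => ?_
  calc ind (‖w‖ ≤ 1) * ind (‖y - w‖ ≤ 1) ≤ ind (‖w‖ ≤ 1) * 1 := by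
        gcongr; exact ind_le_one _
    _ = ind (‖w‖ ≤ 1) := mul_one _

theorem lens_far {y : Eu d} (hy : 9 / 10 < ‖y‖) :
    conv (fun u : Eu d => ind (‖u‖ ≤ 1)) (fun u : Eu d => ind (‖u‖ ≤ 1)) y
      ≤ ENNReal.ofReal ((9 / 10 : ℝ) ^ d) * volume (bal (0 : Eu d) 1) := by
  unfold conv
  rw [← vol_ind ((1 / 2 : ℝ) • y) (by norm_num)]
  refine lintegral_mono fun w => ?_
  change ind (‖w‖ ≤ 1) * ind (‖y - w‖ ≤ 1) ≤ _
  rw [← ind_and]
  apply ind_mono
  rintro ⟨h1, h2⟩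
  have hp := parallelogram_law_with_norm ℝ w (y - w)
  have e1 : w + (y - w) = y := by abel
  have e2 : w - (y - w) = (-2 : ℝ) • ((1 / 2 : ℝ) • y - w) := by
    module
  rw [e1, e2, norm_smul] at hp
  have e3 : ‖(-2 : ℝ)‖ = 2 := by norm_num
  rw [e3] at hp
  have n1 := norm_nonneg w
  have n2 := norm_nonneg (y - w)
  have n3 := norm_nonneg ((1 / 2 : ℝ) • y - w)
  nlinarith

theorem lens : LensStatement := by
  intro d _ x
  set v := volume (bal (0 : Eu d) 1) with hv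
  set c := ENNReal.ofReal ((9 / 10 : ℝ) ^ d) with hc
  have key : ∀ u : Eu d, ind (‖u‖ ≤ 1) *
      conv (fun u : Eu d => ind (‖u‖ ≤ 1)) (fun u : Eu d => ind (‖u‖ ≤ 1)) (x - u) ≤
      ind (‖x - u‖ ≤ 9 / 10) * v + ind (‖u‖ ≤ 1) * (c * v) := by
    intro u
    by_cases h : ‖x - u‖ ≤ 9 / 10
    · rw [ind_of h, one_mul]
      refine le_trans ?_ le_self_add
      calc _ ≤ 1 * v := mul_le_mul' (ind_le_one _) (lens_le _)
        _ = v := one_mul _
    · rw [ind_not h, zero_mul, zero_add]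
      exact mul_le_mul' le_rfl (lens_far (not_le.mp h))
  have hm1 : Measurable fun u : Eu d => ind (‖x - u‖ ≤ 9 / 10) * v :=
    (measurable_ind (meas_norm x (9 / 10))).mul_const _
  have e0 : cpow (fun u : Eu d => ind (‖u‖ ≤ 1)) 2 x = ∫⁻ u : Eu d, ind (‖u‖ ≤ 1) *
      conv (fun u : Eu d => ind (‖u‖ ≤ 1)) (fun u : Eu d => ind (‖u‖ ≤ 1)) (x - u) := rfl
  rw [e0]
  refine (lintegral_mono key).trans ?_
  rw [lintegral_add_left hm1, lintegral_mul_const _ (measurable_ind (meas_norm x (9 / 10))),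
    vol_ind x (by norm_num)]
  have hm2 : Measurable fun u : Eu d => ind (‖u‖ ≤ 1) :=
    measurable_ind (measurableSet_le measurable_norm measurable_const)
  rw [lintegral_mul_const _ hm2, vol_ind_one, ← hv, ← hc]
  apply le_of_eq
  ring

end Pool.Agent.Lib.MP_5349a4_pr.H58
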